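import Pool.Agent.Y262.QE.Stm

/-!
# Parseval's formula on the cylinder (project QE, part PAR2)
-/

set_option autoImplicit false

open Set Filter Topology MeasureTheory
open scoped Real ContDiff ComplexConjugate

noncomputable section

namespace Pool.Agent.Y532.QE

open Pool.Agent.Y262.QE

/-- the measure on `(0, L)` -/
def mx (L : ℝ) : Measure ℝ := volume.restrict (Ioo 0 L)

/-- the measure on `(-π, π)` -/
def my : Measure ℝ := volume.restrict (Ioo (-π) π)

instance (L : ℝ) : IsFiniteMeasure (mx L) := by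
  unfold mx
  exact ⟨by simp⟩

instance : IsFiniteMeasure my := by
  unfold my
  exact ⟨by simp⟩

lemma mp (L : ℝ) : MeasurePreserving (Complex.measurableEquivRealProd.symm)
    ((mx L).prod my) (volume.restrict (Rec L (-π))) := by
  have h1 : MeasurePreserving (Complex.measurableEquivRealProd)
      (volume.restrict (Complex.measurableEquivRealProd ⁻¹' (Ioo 0 L ×ˢ Ioo (-π) π)))
      ((volume : Measure (ℝ × ℝ)).restrict (Ioo 0 L ×ˢ Ioo (-π) π)) :=
    Complex.volume_preserving_equiv_real_prod.restrict_preimage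
      (measurableSet_Ioo.prod measurableSet_Ioo)
  have h2 : Complex.measurableEquivRealProd ⁻¹' (Ioo 0 L ×ˢ Ioo (-π) π) = Rec L (-π) := by
    ext z
    simp only [mem_preimage, mem_prod, mem_Ioo, Complex.measurableEquivRealProd_apply, Rec,
      Set.mem_ofPred_eq]
    have : -π + 2 * π = π := by ring
    rw [this]
  rw [h2, Measure.volume_eq_prod, ← Measure.prod_restrict] at h1
  exact h1.symm

/-- the function in real coordinates -/
def vv (U : ℂ → ℝ) (q : ℝ × ℝ) : ℝ := U ⟨q.1, q.2⟩

lemma int_rec (L : ℝ) (G : ℂ → ℝ) :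
    ∫ z in Rec L (-π), G z = ∫ q, G ⟨q.1, q.2⟩ ∂((mx L).prod my) :=
  ((mp L).integral_comp' (g := G)).symm

lemma vv_mem {L : ℝ} {U : ℂ → ℝ} (hU : MemLp U 2 (volume.restrict (Rec L (-π)))) :
    MemLp (vv U) 2 ((mx L).prod my) :=
  hU.comp_measurePreserving (mp L)

theorem par2 : StPar → StPar2 := by
  intro hpar L U hL hU hodd
  have hV : MemLp (vv U) 2 ((mx L).prod my) := vv_mem hU
  have hodd' : ∀ᵐ q ∂((mx L).prod my), vv U (q.1, -q.2) = - vv U q :=
    (mp L).quasiMeasurePreserving.ae hodd
  have hsq : Integrable (fun q => vv U q ^ 2) ((mx L).prod my) := hV.integrable_sq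
  have hx1 : ∀ᵐ x ∂(mx L), Integrable (fun y => vv U (x, y) ^ 2) my := hsq.prod_right_ae
  have hx2 : ∀ᵐ x ∂(mx L), AEStronglyMeasurable (fun y => vv U (x, y)) my :=
    hV.aestronglyMeasurable.prodMk_left
  have hx3 : ∀ᵐ x ∂(mx L), ∀ᵐ y ∂my, vv U (x, -y) = - vv U (x, y) :=
    Measure.ae_ae_of_ae_prod hodd'
  set P : ℝ → ℝ := fun x => ∫ y, vv U (x, y) ^ 2 ∂my with hP
  have hPi : Integrable P (mx L) := hsq.integral_prod_left
  have hsum : ∀ᵐ x ∂(mx L), HasSum (fun m : ℕ => (cf U m x) ^ 2) (P x) := by
    filter_upwards [hx1, hx2, hx3] with x h1 h2 h3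
    exact hpar (fun y => vv U (x, y)) ((memLp_two_iff_integrable_sq h2).2 h1) h3
  have hm : ∀ m : ℕ, AEStronglyMeasurable (cf U m) (mx L) := by
    intro m
    have h1 : AEStronglyMeasurable (fun q : ℝ × ℝ => Real.sin ((m + 1) * q.2) * vv U q)
        ((mx L).prod my) := by
      refine AEStronglyMeasurable.mul ?_ hV.aestronglyMeasurable
      exact (by fun_prop : Continuous fun q : ℝ × ℝ => Real.sin ((m + 1) * q.2)).aestronglyMeasurable
    exact (h1.integral_prod_right').const_mul _
  have hle : ∀ m : ℕ, ∀ᵐ x ∂(mx L), (cf U m x) ^ 2 ≤ P x := by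
    intro m
    filter_upwards [hsum] with x hx
    exact le_hasSum hx m (fun j _ => sq_nonneg _)
  have hci : ∀ m : ℕ, Integrable (fun x => (cf U m x) ^ 2) (mx L) := by
    intro m
    refine hPi.mono' ((hm m).pow 2) ?_
    filter_upwards [hle m] with x hx
    rw [Real.norm_eq_abs, abs_of_nonneg (sq_nonneg _)]
    exact hx
  have hcm : ∀ m, MemLp (cf U m) 2 (mx L) := fun m => (memLp_two_iff_integrable_sq (hm m)).2 (hci m)
  refine ⟨hcm, fun η hη hb => ?_⟩
  obtain ⟨C, hC⟩ := hb
  have hC0 : 0 ≤ C := (abs_nonneg _).trans (hC 0)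
  refine ⟨fun m => ?_, ?_⟩
  · have hVi : Integrable (vv U) ((mx L).prod my) := hV.integrable (by norm_num)
    have hint : Integrable (fun q : ℝ × ℝ => η q.1 * Real.sin ((m + 1) * q.2) * vv U q)
        ((mx L).prod my) := by
      refine hVi.bdd_mul (c := C) ?_ ?_
      · refine Measurable.aestronglyMeasurable ?_
        exact (hη.comp measurable_fst).mul (by fun_prop)
      · refine Eventually.of_forall fun q => ?_
        rw [Real.norm_eq_abs, abs_mul]
        calc |η q.1| * |Real.sin ((m + 1) * q.2)| ≤ C * 1 :=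
              mul_le_mul (hC _) (Real.abs_sin_le_one _) (abs_nonneg _) hC0
          _ = C := mul_one C
    have h1 : ∫ z in Rec L (-π), η z.re * Real.sin ((m + 1) * z.im) * U z =
        ∫ q, η q.1 * Real.sin ((m + 1) * q.2) * vv U q ∂((mx L).prod my) := int_rec L _
    rw [h1, integral_prod _ hint]
    have hpi : Real.sqrt π ≠ 0 := (Real.sqrt_pos.2 Real.pi_pos).ne'
    rw [← integral_const_mul]
    refine integral_congr_ae (Eventually.of_forall fun x => ?_)
    have h2 : ∀ y, η x * Real.sin ((m + 1) * y) * vv U (x, y) =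
        η x * (Real.sin ((m + 1) * y) * vv U (x, y)) := fun y => by ring
    simp only [h2]
    rw [integral_const_mul]
    have h3 : ∫ y, Real.sin ((m + 1) * y) * vv U (x, y) ∂my = Real.sqrt π * cf U m x := by
      unfold cf
      rw [← mul_assoc, mul_inv_cancel₀ hpi, one_mul]
      rfl
    rw [h3]
    ring
  · have hF : ∀ m : ℕ, Integrable (fun x => η x * (cf U m x) ^ 2) (mx L) := by
      intro m
      refine (hci m).bdd_mul (c := C) hη.aestronglyMeasurable ?_
      exact Eventually.of_forall fun x => by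
        rw [Real.norm_eq_abs]
        exact hC x
    have hs1 : Summable fun m : ℕ => ∫ x, (cf U m x) ^ 2 ∂(mx L) := by
      refine summable_of_sum_le (c := ∫ x, P x ∂(mx L))
        (fun m => integral_nonneg fun x => sq_nonneg _) fun s => ?_
      rw [← integral_finsetSum s (fun m _ => hci m)]
      refine integral_mono_ae (integrable_finsetSum s fun m _ => hci m) hPi ?_
      filter_upwards [hsum] with x hx
      exact sum_le_hasSum s (fun j _ => sq_nonneg _) hx
    have hs2 : Summable fun m : ℕ => ∫ x, ‖η x * (cf U m x) ^ 2‖ ∂(mx L) := by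
      refine Summable.of_nonneg_of_le (fun m => integral_nonneg fun x => norm_nonneg _)
        (fun m => ?_) (hs1.mul_left C)
      rw [← integral_const_mul]
      refine integral_mono (hF m).norm ((hci m).const_mul C) fun x => ?_
      simp only [norm_mul, Real.norm_eq_abs]
      rw [abs_of_nonneg (sq_nonneg (cf U m x))]
      exact mul_le_mul_of_nonneg_right (hC x) (sq_nonneg _)
    have h1 := hasSum_integral_of_summable_integral_norm hF hs2
    have h2 : ∫ x, ∑' m : ℕ, η x * (cf U m x) ^ 2 ∂(mx L) = ∫ x, η x * P x ∂(mx L) := by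
      refine integral_congr_ae ?_
      filter_upwards [hsum] with x hx
      exact (hx.mul_left (η x)).tsum_eq
    have hint : Integrable (fun q : ℝ × ℝ => η q.1 * vv U q ^ 2) ((mx L).prod my) := by
      refine hsq.bdd_mul (c := C) (hη.comp measurable_fst).aestronglyMeasurable ?_
      exact Eventually.of_forall fun x => by
        rw [Real.norm_eq_abs]
        exact hC x.1
    have h3 : ∫ z in Rec L (-π), η z.re * (U z) ^ 2 = ∫ x, η x * P x ∂(mx L) := by
      have h4 : ∫ z in Rec L (-π), η z.re * (U z) ^ 2 =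
          ∫ q, η q.1 * vv U q ^ 2 ∂((mx L).prod my) := int_rec L _
      rw [h4, integral_prod _ hint]
      refine integral_congr_ae (Eventually.of_forall fun x => ?_)
      exact integral_const_mul (η x) (fun y => vv U (x, y) ^ 2)
    rw [h3, ← h2]
    exact h1

end Pool.Agent.Y532.QE
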